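import Pool.Agent.Helper60.HB.Skel

set_option autoImplicit false

/-! # Baker's theorem for arbitrary algebraic numbers from the main proposition -/

open NumberField Pool.Agent.Helper60.HB

namespace Pool.Agent.Helper89.HB

noncomputable section

/-! ## the extended data -/

theorem bt_root {K : Type} [Field K] [NumberField K] (σ : K →+* ℂ) (w : ℕ) (ζ : K) (hw : 1 ≤ w)
    (hζ : σ ζ = Complex.exp (2 * Real.pi * Complex.I / w)) : ζ ^ w = 1 := by
  apply σ.injective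
  rw [map_pow, hζ, map_one, ← Complex.exp_nat_mul]
  have hw0 : (w : ℂ) ≠ 0 := by
    exact_mod_cast (by omega : w ≠ 0)
  rw [mul_div_cancel₀ _ hw0, Complex.exp_two_pi_mul_I]

theorem bt_height {K : Type} [Field K] [NumberField K] (w : ℕ) (ζ : K) (hw : 1 ≤ w)
    (h : ζ ^ w = 1) : Height.logHeight₁ ζ = 0 := by
  have h1 := Height.logHeight₁_pow ζ w
  rw [h, Height.logHeight₁_one] at h1
  have hw0 : (w : ℝ) ≠ 0 := by
    exact_mod_cast (by omega : w ≠ 0)
  rcases mul_eq_zero.mp h1.symm with h2 | h2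
  · exact absurd h2 hw0
  · exact h2

/-- the data with the root of unity added -/
def bt_ext {n : ℕ} {K : Type} [Field K] [NumberField K] (D : BData n K) (w : ℕ)
    (ζ : K) (hw : 1 ≤ w) (hζ : D.σ ζ = Complex.exp (2 * Real.pi * Complex.I / w)) :
    BData (n + 1) K where
  σ := D.σ
  α := Fin.cons ζ D.α
  l := Fin.cons (2 * Real.pi * Complex.I / w) D.l
  A := Fin.cons 7 D.A
  α_ne := by
    intro i
    refine Fin.cases ?_ (fun i => ?_) i
    · intro h
      rw [Fin.cons_zero] at h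
      rw [h, map_zero] at hζ
      exact (Complex.exp_ne_zero _) hζ.symm
    · rw [Fin.cons_succ]
      exact D.α_ne i
  exp_l := by
    intro i
    refine Fin.cases ?_ (fun i => ?_) i
    · rw [Fin.cons_zero, Fin.cons_zero]
      exact hζ.symm
    · rw [Fin.cons_succ, Fin.cons_succ]
      exact D.exp_l i
  one_le_A := by
    intro i
    refine Fin.cases ?_ (fun i => ?_) i
    · rw [Fin.cons_zero]
      norm_num
    · rw [Fin.cons_succ]
      exact D.one_le_A i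
  l_le := by
    intro i
    refine Fin.cases ?_ (fun i => ?_) i
    · rw [Fin.cons_zero, Fin.cons_zero]
      have hw1 : (1 : ℝ) ≤ w := by exact_mod_cast hw
      have h1 : ‖2 * (Real.pi : ℂ) * Complex.I / (w : ℂ)‖ = 2 * Real.pi / w := by
        rw [norm_div, norm_mul, norm_mul, Complex.norm_I, Complex.norm_natCast,
          Complex.norm_real, Real.norm_of_nonneg Real.pi_pos.le]
        simp
      rw [h1]
      have h2 : 2 * Real.pi / w ≤ 2 * Real.pi :=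
        div_le_self (by positivity) hw1
      have h3 := Real.pi_lt_d2
      linarith
    · rw [Fin.cons_succ, Fin.cons_succ]
      exact D.l_le i
  h_le := by
    intro i
    refine Fin.cases ?_ (fun i => ?_) i
    · rw [Fin.cons_zero, Fin.cons_zero, bt_height w ζ hw (bt_root D.σ w ζ hw hζ)]
      norm_num
    · rw [Fin.cons_succ, Fin.cons_succ]
      exact D.h_le i

theorem bt_ext_LS {n : ℕ} {K : Type} [Field K] [NumberField K] (D : BData n K) (w : ℕ)
    (ζ : K) (hw : 1 ≤ w) (hζ : D.σ ζ = Complex.exp (2 * Real.pi * Complex.I / w)) (b0 : ℤ)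
    (b : Fin n → ℤ) :
    LS (bt_ext D w ζ hw hζ).l (Fin.cons ((w : ℤ) * b0) b : Fin (n + 1) → ℤ) =
      (b0 : ℂ) * (2 * Real.pi * Complex.I) + LS D.l b := by
  have hw0 : (w : ℂ) ≠ 0 := by
    exact_mod_cast (by omega : w ≠ 0)
  unfold LS
  rw [Fin.sum_univ_succ]
  show (((Fin.cons ((w : ℤ) * b0) b : Fin (n + 1) → ℤ) 0 : ℤ) : ℂ) *
      (Fin.cons (2 * (Real.pi : ℂ) * Complex.I / w) D.l : Fin (n + 1) → ℂ) 0 +
    ∑ i : Fin n, (((Fin.cons ((w : ℤ) * b0) b : Fin (n + 1) → ℤ) i.succ : ℤ) : ℂ) *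
      (Fin.cons (2 * (Real.pi : ℂ) * Complex.I / w) D.l : Fin (n + 1) → ℂ) i.succ = _
  simp only [Fin.cons_zero, Fin.cons_succ]
  push_cast
  field_simp

theorem bt_ext_A {n : ℕ} {K : Type} [Field K] [NumberField K] (D : BData n K) (w : ℕ)
    (ζ : K) (hw : 1 ≤ w) (hζ : D.σ ζ = Complex.exp (2 * Real.pi * Complex.I / w)) :
    ∏ i, (bt_ext D w ζ hw hζ).A i = 7 * ∏ i, D.A i := by
  rw [Fin.prod_univ_succ]
  show (Fin.cons 7 D.A : Fin (n + 1) → ℝ) 0 *
    ∏ i : Fin n, (Fin.cons 7 D.A : Fin (n + 1) → ℝ) i.succ = _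
  simp only [Fin.cons_zero, Fin.cons_succ]

/-- the data with one number removed -/
def bt_sub {n : ℕ} {K : Type} [Field K] [NumberField K] (D : BData (n + 1) K) (j : Fin (n + 1)) :
    BData n K where
  σ := D.σ
  α := fun i => D.α (j.succAbove i)
  l := fun i => D.l (j.succAbove i)
  A := fun i => D.A (j.succAbove i)
  α_ne := fun _ => D.α_ne _
  exp_l := fun _ => D.exp_l _
  one_le_A := fun _ => D.one_le_A _
  l_le := fun _ => D.l_le _
  h_le := fun _ => D.h_le _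

theorem bt_one_le_prod {n : ℕ} (A : Fin n → ℝ) (h : ∀ i, 1 ≤ A i) : 1 ≤ ∏ i, A i := by
  calc (1 : ℝ) = ∏ _i : Fin n, (1 : ℝ) := by simp
    _ ≤ ∏ i, A i := Finset.prod_le_prod (fun _ _ => zero_le_one) (fun i _ => h i)

theorem bt_le_prod {n : ℕ} (A : Fin n → ℝ) (h : ∀ i, 1 ≤ A i) (j : Fin n) :
    A j ≤ ∏ i, A i := by
  cases n with
  | zero => exact j.elim0
  | succ n =>
    rw [Fin.prod_univ_succAbove A j]
    have h1 : 1 ≤ ∏ i, A (j.succAbove i) := bt_one_le_prod _ (fun i => h _)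
    have h2 := h j
    nlinarith

theorem bt_exp_LS {n : ℕ} {K : Type} [Field K] [NumberField K] (D : BData n K)
    (ν : Fin n → ℤ) : Complex.exp (LS D.l ν) = D.σ (∏ i, D.α i ^ ν i) := by
  unfold LS
  rw [Complex.exp_sum, map_prod]
  refine Finset.prod_congr rfl (fun i _ => ?_)
  rw [Complex.exp_int_mul, D.exp_l, map_zpow₀]

theorem bt_rel_k {n : ℕ} {K : Type} [Field K] [NumberField K] (D : BData n K)
    (ν : Fin n → ℤ) (w : ℕ) (h : (∏ i, D.α i ^ ν i) ^ w = 1) :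
    ∃ k : ℤ, (w : ℂ) * LS D.l ν = (k : ℂ) * (2 * Real.pi * Complex.I) := by
  have h1 : Complex.exp ((w : ℂ) * LS D.l ν) = 1 := by
    rw [Complex.exp_nat_mul, bt_exp_LS, ← map_pow, h, map_one]
  exact Complex.exp_eq_one_iff.mp h1

theorem bt_LS_norm {n : ℕ} (l : Fin n → ℂ) (ν : Fin n → ℤ) (A V : ℝ) (hV : 0 ≤ V)
    (hl : ∀ i, ‖l i‖ ≤ A) (hν : ∀ i, |(ν i : ℝ)| ≤ V) : ‖LS l ν‖ ≤ n * (V * A) := by
  unfold LS
  calc ‖∑ i, (ν i : ℂ) * l i‖ ≤ ∑ i, ‖(ν i : ℂ) * l i‖ := norm_sum_le _ _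
    _ ≤ ∑ _i : Fin n, V * A := by
        refine Finset.sum_le_sum (fun i _ => ?_)
        rw [norm_mul, Complex.norm_intCast]
        exact mul_le_mul (hν i) (hl i) (norm_nonneg _) hV
    _ = n * (V * A) := by simp

theorem bt_identity {n : ℕ} (l : Fin (n + 1) → ℂ) (ν b : Fin (n + 1) → ℤ) (b0 k : ℤ) (w : ℕ)
    (T : ℂ) (j : Fin (n + 1)) (hk : (w : ℂ) * LS l ν = (k : ℂ) * T) :
    (((w : ℤ) * ν j * b0 + b j * k : ℤ) : ℂ) * T +
      LS (fun i => l (j.succAbove i))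
        (fun i => (w : ℤ) * (ν j * b (j.succAbove i) - b j * ν (j.succAbove i))) =
      ((w : ℂ) * (ν j : ℂ)) * ((b0 : ℂ) * T + LS l b) := by
  have h1 : LS l b = (b j : ℂ) * l j + ∑ i : Fin n, (b (j.succAbove i) : ℂ) * l (j.succAbove i) := by
    unfold LS
    exact Fin.sum_univ_succAbove _ j
  have h2 : LS l ν = (ν j : ℂ) * l j + ∑ i : Fin n, (ν (j.succAbove i) : ℂ) * l (j.succAbove i) := by
    unfold LS
    exact Fin.sum_univ_succAbove _ j
  have h3 : LS (fun i => l (j.succAbove i))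
        (fun i => (w : ℤ) * (ν j * b (j.succAbove i) - b j * ν (j.succAbove i))) =
      (w : ℂ) * ((ν j : ℂ) * ∑ i : Fin n, (b (j.succAbove i) : ℂ) * l (j.succAbove i) -
        (b j : ℂ) * ∑ i : Fin n, (ν (j.succAbove i) : ℂ) * l (j.succAbove i)) := by
    unfold LS
    rw [Finset.mul_sum, Finset.mul_sum, ← Finset.sum_sub_distrib, Finset.mul_sum]
    refine Finset.sum_congr rfl (fun i _ => ?_)
    push_cast
    ring
  rw [h2] at hk
  rw [h3, h1]
  push_cast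
  linear_combination (-(b j : ℂ)) * hk

/-! ## real inequalities -/

theorem bt_log1 (B A : ℝ) (hB : 2 ≤ B) (hA : 1 ≤ A) :
    1 ≤ Real.log (B * A) + 1 ∧ Real.log A ≤ Real.log (B * A) + 1 := by
  have h1 : 1 ≤ B * A := by nlinarith
  have h2 : 0 ≤ Real.log (B * A) := Real.log_nonneg h1
  have h3 : Real.log A ≤ Real.log (B * A) := Real.log_le_log (by linarith) (by nlinarith)
  exact ⟨by linarith, by linarith⟩

theorem bt_indep_ineq (B A Wr C1 : ℝ) (hB : 2 ≤ B) (hA : 1 ≤ A) (hW : 1 ≤ Wr) (hC : 1 ≤ C1) :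
    C1 * (7 * A) * (Real.log (Wr * B * (7 * A)) + 1) ^ 3 ≤
      (7 * C1 * (1 + Real.log (7 * Wr)) ^ 3) * A * (Real.log (B * A) + 1) ^ 3 := by
  obtain ⟨hL, -⟩ := bt_log1 B A hB hA
  have e1 : Wr * B * (7 * A) = (7 * Wr) * (B * A) := by ring
  have e2 : Real.log (Wr * B * (7 * A)) = Real.log (7 * Wr) + Real.log (B * A) := by
    rw [e1, Real.log_mul (by positivity) (by positivity)]
  have hl7 : 0 ≤ Real.log (7 * Wr) := Real.log_nonneg (by linarith)
  have h1 : Real.log (Wr * B * (7 * A)) + 1 ≤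
      (1 + Real.log (7 * Wr)) * (Real.log (B * A) + 1) := by
    rw [e2]
    nlinarith
  have h0 : 0 ≤ Real.log (Wr * B * (7 * A)) + 1 := by
    rw [e2]
    linarith
  have h2 : (Real.log (Wr * B * (7 * A)) + 1) ^ 3 ≤
      ((1 + Real.log (7 * Wr)) * (Real.log (B * A) + 1)) ^ 3 :=
    pow_le_pow_left₀ h0 h1 3
  calc C1 * (7 * A) * (Real.log (Wr * B * (7 * A)) + 1) ^ 3
      ≤ C1 * (7 * A) * ((1 + Real.log (7 * Wr)) * (Real.log (B * A) + 1)) ^ 3 :=
        mul_le_mul_of_nonneg_left h2 (by positivity)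
    _ = (7 * C1 * (1 + Real.log (7 * Wr)) ^ 3) * A * (Real.log (B * A) + 1) ^ 3 := by ring

theorem bt_dep_ineq (n : ℕ) (B A A2 M V Cn : ℝ) (hB : 2 ≤ B) (hA : 1 ≤ A) (hA2 : 1 ≤ A2)
    (hA2A : A2 ≤ A) (hM : 1 ≤ M) (hV : 0 < V) (hVM : V ≤ M * A ^ (n + 1)) (hC : 1 ≤ Cn) :
    Cn * A2 * (Real.log (M * B * A ^ (n + 2) * A2) + 1) ^ 3 + Real.log V ≤
      (Cn * (Real.log M + n + 3) ^ 3 + (Real.log M + n + 1)) * A *
        (Real.log (B * A) + 1) ^ 3 := by
  obtain ⟨hL, hAL⟩ := bt_log1 B A hB hA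
  set L := Real.log (B * A) + 1 with hLdef
  have hlM : 0 ≤ Real.log M := Real.log_nonneg hM
  have hA0 : 0 < A := by linarith
  have hB0 : 0 < B := by linarith
  have hM0 : 0 < M := by linarith
  have hn : (0 : ℝ) ≤ n := Nat.cast_nonneg n
  have hAn : 1 ≤ A ^ (n + 2) := one_le_pow₀ hA
  have hlA : 0 ≤ Real.log A := Real.log_nonneg hA
  -- the first logarithm
  have a1 : Real.log (M * B * A ^ (n + 2) * A2) ≤ Real.log (M * B * A ^ (n + 2) * A) :=
    Real.log_le_log (by positivity) (mul_le_mul_of_nonneg_left hA2A (by positivity))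
  have a2 : Real.log (M * B * A ^ (n + 2) * A) =
      Real.log M + Real.log (B * A) + (n + 2) * Real.log A := by
    have e : M * B * A ^ (n + 2) * A = M * (B * A) * A ^ (n + 2) := by ring
    rw [e, Real.log_mul (by positivity) (by positivity),
      Real.log_mul (by positivity) (by positivity), Real.log_pow]
    push_cast
    ring
  have a3 : Real.log (M * B * A ^ (n + 2) * A2) + 1 ≤ (Real.log M + n + 3) * L := by
    have b1 : (n + 2) * Real.log A ≤ (n + 2) * L :=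
      mul_le_mul_of_nonneg_left hAL (by positivity)
    have b2 : Real.log M ≤ Real.log M * L := by nlinarith
    have b3 : Real.log (B * A) + 1 = L := rfl
    nlinarith
  have hone : 1 ≤ M * B * A ^ (n + 2) * A2 := by
    have c1 : 1 ≤ M * B := by nlinarith
    have c2 : 1 ≤ M * B * A ^ (n + 2) := by nlinarith
    nlinarith
  have a0 : 0 ≤ Real.log (M * B * A ^ (n + 2) * A2) + 1 := by
    have := Real.log_nonneg hone
    linarith
  have a4 : (Real.log (M * B * A ^ (n + 2) * A2) + 1) ^ 3 ≤ ((Real.log M + n + 3) * L) ^ 3 :=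
    pow_le_pow_left₀ a0 a3 3
  have a5 : Cn * A2 * (Real.log (M * B * A ^ (n + 2) * A2) + 1) ^ 3 ≤
      Cn * A * ((Real.log M + n + 3) * L) ^ 3 := by
    refine mul_le_mul (mul_le_mul_of_nonneg_left hA2A (by linarith)) a4 (by positivity)
      (by positivity)
  -- the second logarithm
  have d1 : Real.log V ≤ Real.log M + (n + 1) * Real.log A := by
    have e : Real.log (M * A ^ (n + 1)) = Real.log M + (n + 1) * Real.log A := by
      rw [Real.log_mul (by positivity) (by positivity), Real.log_pow]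
      push_cast
      ring
    rw [← e]
    exact Real.log_le_log hV hVM
  have d2 : Real.log V ≤ (Real.log M + n + 1) * L := by
    have b1 : (n + 1) * Real.log A ≤ (n + 1) * L :=
      mul_le_mul_of_nonneg_left hAL (by positivity)
    have b2 : Real.log M ≤ Real.log M * L := by nlinarith
    nlinarith
  have d3 : (Real.log M + n + 1) * L ≤ (Real.log M + n + 1) * (A * L ^ 3) := by
    refine mul_le_mul_of_nonneg_left ?_ (by positivity)
    have e1 : L ≤ L ^ 3 := by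
      calc L = L ^ 1 := (pow_one L).symm
        _ ≤ L ^ 3 := pow_le_pow_right₀ hL (by norm_num)
    have e2 : L ^ 3 ≤ A * L ^ 3 := by
      have : 0 ≤ L ^ 3 := by positivity
      nlinarith
    linarith
  calc Cn * A2 * (Real.log (M * B * A ^ (n + 2) * A2) + 1) ^ 3 + Real.log V
      ≤ Cn * A * ((Real.log M + n + 3) * L) ^ 3 + (Real.log M + n + 1) * (A * L ^ 3) := by
        linarith
    _ = (Cn * (Real.log M + n + 3) ^ 3 + (Real.log M + n + 1)) * A * L ^ 3 := by ring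

theorem bt_exp_mono (X Y Z : ℝ) (A L : ℝ) (h : X ≤ Y * A * L) (hYZ : Y ≤ Z) (hA : 0 ≤ A)
    (hL : 0 ≤ L) : Real.exp (-Z * A * L) ≤ Real.exp (-X) := by
  apply Real.exp_le_exp.mpr
  have h1 : Y * A * L ≤ Z * A * L := by
    refine mul_le_mul_of_nonneg_right (mul_le_mul_of_nonneg_right hYZ hA) hL
  have h2 : -Z * A * L = -(Z * A * L) := by ring
  rw [h2]
  linarith

/-! ## the two cases -/

/-- the statement for fixed `n`, `d` and constant -/
def BTC (n d : ℕ) (C : ℝ) : Prop := ∀ (K : Type) [Field K] [NumberField K],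
  Module.finrank ℚ K = d → ∀ (D : BData n K) (b0 : ℤ) (b : Fin n → ℤ) (B : ℝ), 2 ≤ B →
    |(b0 : ℝ)| ≤ B → (∀ i, |(b i : ℝ)| ≤ B) →
    (b0 : ℂ) * (2 * Real.pi * Complex.I) + LS D.l b ≠ 0 →
    Real.exp (-C * (∏ i, D.A i) * (Real.log (B * ∏ i, D.A i) + 1) ^ 3) ≤
      ‖(b0 : ℂ) * (2 * Real.pi * Complex.I) + LS D.l b‖

theorem bt_zero (d : ℕ) : BTC 0 d 1 := by
  intro K _ _ _ D b0 b B hB _ _ hne
  have hLS : LS D.l b = 0 := by
    unfold LS
    simp
  rw [hLS, add_zero] at hne ⊢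
  have hb0 : b0 ≠ 0 := by
    rintro rfl
    simp at hne
  have h1 : (1 : ℝ) ≤ |(b0 : ℝ)| := by
    rw [← Int.cast_abs]
    exact_mod_cast Int.one_le_abs hb0
  have h2 : ‖(b0 : ℂ) * (2 * Real.pi * Complex.I)‖ = |(b0 : ℝ)| * (2 * Real.pi) := by
    rw [norm_mul, norm_mul, norm_mul, Complex.norm_I, Complex.norm_intCast,
      Complex.norm_real, Real.norm_of_nonneg Real.pi_pos.le]
    simp
  have h3 : (1 : ℝ) ≤ ‖(b0 : ℂ) * (2 * Real.pi * Complex.I)‖ := by
    rw [h2]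
    have := Real.pi_gt_three
    nlinarith
  refine le_trans ?_ h3
  rw [Real.exp_le_one_iff]
  have h4 : (1 : ℝ) ≤ B * ∏ i : Fin 0, D.A i := by simp; linarith
  have h5 := Real.log_nonneg h4
  have h6 : 0 ≤ (Real.log (B * ∏ i : Fin 0, D.A i) + 1) ^ 3 := by positivity
  have h7 : ∏ i : Fin 0, D.A i = 1 := by simp
  rw [h7] at h6 ⊢
  linarith

theorem bt_case1 (n : ℕ) {K : Type} [Field K] [NumberField K] (D : BData (n + 1) K) (b0 : ℤ)
    (b : Fin (n + 1) → ℤ) (B : ℝ) (hB : 2 ≤ B) (hb0 : |(b0 : ℝ)| ≤ B)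
    (hb : ∀ i, |(b i : ℝ)| ≤ B)
    (hne : (b0 : ℂ) * (2 * Real.pi * Complex.I) + LS D.l b ≠ 0) (w : ℕ) (Wr : ℝ) (ζ : K)
    (hw : 1 ≤ w) (hwW : (w : ℝ) ≤ Wr)
    (hζ : D.σ ζ = Complex.exp (2 * Real.pi * Complex.I / w)) (C1 : ℝ) (hC1 : 1 ≤ C1)
    (hmain : ∀ (b' : Fin (n + 2) → ℤ) (B' : ℝ), b' ≠ 0 → 2 ≤ B' → (∀ i, |(b' i : ℝ)| ≤ B') →
      Real.exp (-C1 * (∏ i, (bt_ext D w ζ hw hζ).A i) *
        (Real.log (B' * ∏ i, (bt_ext D w ζ hw hζ).A i) + 1) ^ 3) ≤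
        ‖LS (bt_ext D w ζ hw hζ).l b'‖) :
    Real.exp (-(C1 * (7 * ∏ i, D.A i) * (Real.log (Wr * B * (7 * ∏ i, D.A i)) + 1) ^ 3)) ≤
      ‖(b0 : ℂ) * (2 * Real.pi * Complex.I) + LS D.l b‖ := by
  have hw1 : (1 : ℝ) ≤ w := by exact_mod_cast hw
  have hW1 : 1 ≤ Wr := le_trans hw1 hwW
  have hb'ne : (Fin.cons ((w : ℤ) * b0) b : Fin (n + 2) → ℤ) ≠ 0 := by
    intro h
    apply hne
    rw [← bt_ext_LS D w ζ hw hζ b0 b, h]
    unfold LS
    simp
  have h1 := hmain (Fin.cons ((w : ℤ) * b0) b) (Wr * B) hb'ne (by nlinarith) (by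
    intro i
    refine Fin.cases ?_ (fun i => ?_) i
    · rw [Fin.cons_zero]
      push_cast
      rw [abs_mul, Nat.abs_cast]
      exact mul_le_mul hwW hb0 (abs_nonneg _) (by linarith)
    · rw [Fin.cons_succ]
      have := hb i
      nlinarith)
  rw [bt_ext_LS, bt_ext_A] at h1
  have e : -C1 * (7 * ∏ i, D.A i) * (Real.log (Wr * B * (7 * ∏ i, D.A i)) + 1) ^ 3 =
    -(C1 * (7 * ∏ i, D.A i) * (Real.log (Wr * B * (7 * ∏ i, D.A i)) + 1) ^ 3) := by ring
  rw [e] at h1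
  exact h1

theorem bt_case2 (n d : ℕ) (Cn : ℝ) (hCn : 1 ≤ Cn) (hIH : BTC n d Cn)
    {K : Type} [Field K] [NumberField K] (hd : Module.finrank ℚ K = d)
    (D : BData (n + 1) K) (b0 : ℤ)
    (b : Fin (n + 1) → ℤ) (B : ℝ) (hB : 2 ≤ B) (hb0 : |(b0 : ℝ)| ≤ B)
    (hb : ∀ i, |(b i : ℝ)| ≤ B)
    (hne : (b0 : ℂ) * (2 * Real.pi * Complex.I) + LS D.l b ≠ 0) (w : ℕ) (Wr CR : ℝ)
    (hw : 1 ≤ w) (hwW : (w : ℝ) ≤ Wr) (hCR : 1 ≤ CR)
    (hT : ∀ x : K, TOR x → x ^ w = 1)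
    (ν : Fin (n + 1) → ℤ) (hν : ν ≠ 0)
    (hνB : ∀ i, |(ν i : ℝ)| ≤ CR * (∏ i, D.A i) ^ (n + 1))
    (hνT : TOR (∏ i, D.α i ^ ν i)) (C : ℝ)
    (hC : Cn * (Real.log (2 * Wr * CR * (n + 2)) + n + 3) ^ 3 +
      (Real.log (2 * Wr * CR * (n + 2)) + n + 1) ≤ C) :
    Real.exp (-C * (∏ i, D.A i) * (Real.log (B * ∏ i, D.A i) + 1) ^ 3) ≤
      ‖(b0 : ℂ) * (2 * Real.pi * Complex.I) + LS D.l b‖ := by
  set A := ∏ i, D.A i with hAdef
  set M := 2 * Wr * CR * (n + 2) with hMdef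
  have hw1 : (1 : ℝ) ≤ w := by exact_mod_cast hw
  have hW1 : 1 ≤ Wr := le_trans hw1 hwW
  have hn : (0 : ℝ) ≤ n := Nat.cast_nonneg n
  have hWC : 1 ≤ Wr * CR := by nlinarith
  have hM1 : 2 ≤ M := by
    rw [hMdef]
    nlinarith
  have hA1 : 1 ≤ A := bt_one_le_prod _ D.one_le_A
  have hA0 : 0 < A := by linarith
  have hApos : 0 < A ^ (n + 1) := by positivity
  have hApow : 1 ≤ A ^ (n + 1) := one_le_pow₀ hA1
  have hApow2 : A ^ (n + 2) = A ^ (n + 1) * A := pow_succ A (n + 1)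
  obtain ⟨j, hj⟩ : ∃ j, ν j ≠ 0 := by
    by_contra hcon
    push Not at hcon
    exact hν (funext hcon)
  obtain ⟨k, hk⟩ := bt_rel_k D ν w (hT _ hνT)
  -- bound for `k`
  have hlA : ∀ i, ‖D.l i‖ ≤ A := fun i => (D.l_le i).trans (bt_le_prod _ D.one_le_A i)
  have hkB : |(k : ℝ)| ≤ Wr * ((n + 1) * (CR * A ^ (n + 1) * A)) := by
    have h1 := bt_LS_norm D.l ν A (CR * A ^ (n + 1)) (by positivity) hlA hνB
    have h2 : ‖(w : ℂ) * LS D.l ν‖ ≤ Wr * ((n + 1) * (CR * A ^ (n + 1) * A)) := by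
      rw [norm_mul, Complex.norm_natCast]
      refine mul_le_mul hwW ?_ (norm_nonneg _) (by linarith)
      have : ((n + 1 : ℕ) : ℝ) = (n : ℝ) + 1 := by push_cast; ring
      rw [this] at h1
      exact h1
    rw [hk] at h2
    have h3 : ‖(k : ℂ) * (2 * Real.pi * Complex.I)‖ = |(k : ℝ)| * (2 * Real.pi) := by
      rw [norm_mul, norm_mul, norm_mul, Complex.norm_I, Complex.norm_intCast,
        Complex.norm_real, Real.norm_of_nonneg Real.pi_pos.le]
      simp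
    rw [h3] at h2
    have h4 := Real.pi_gt_three
    have h5 := abs_nonneg (k : ℝ)
    nlinarith
  -- the new linear form
  have hid := bt_identity D.l ν b b0 k w (2 * Real.pi * Complex.I) j hk
  have hwν : ((w : ℂ) * (ν j : ℂ)) ≠ 0 := by
    refine mul_ne_zero ?_ ?_
    · exact_mod_cast (by omega : w ≠ 0)
    · exact_mod_cast hj
  have hne2 : (((w : ℤ) * ν j * b0 + b j * k : ℤ) : ℂ) * (2 * Real.pi * Complex.I) +
      LS (bt_sub D j).l
        (fun i => (w : ℤ) * (ν j * b (j.succAbove i) - b j * ν (j.succAbove i))) ≠ 0 := by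
    show (((w : ℤ) * ν j * b0 + b j * k : ℤ) : ℂ) * (2 * Real.pi * Complex.I) +
      LS (fun i => D.l (j.succAbove i))
        (fun i => (w : ℤ) * (ν j * b (j.succAbove i) - b j * ν (j.succAbove i))) ≠ 0
    rw [hid]
    exact mul_ne_zero hwν hne
  have hB2 : 2 ≤ M * B * A ^ (n + 2) := by
    have h1 : 1 ≤ A ^ (n + 2) := one_le_pow₀ hA1
    have h2 : 2 ≤ M * B := by nlinarith
    nlinarith
  have hbound0 : |(((w : ℤ) * ν j * b0 + b j * k : ℤ) : ℝ)| ≤ M * B * A ^ (n + 2) := by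
    push_cast
    have h1 : |(w : ℝ) * (ν j : ℝ) * (b0 : ℝ)| ≤ Wr * (CR * A ^ (n + 1)) * B := by
      rw [abs_mul, abs_mul, Nat.abs_cast]
      exact mul_le_mul (mul_le_mul hwW (hνB j) (abs_nonneg _) (by linarith)) hb0
        (abs_nonneg _) (by positivity)
    have h2 : |(b j : ℝ) * (k : ℝ)| ≤ B * (Wr * ((n + 1) * (CR * A ^ (n + 1) * A))) := by
      rw [abs_mul]
      exact mul_le_mul (hb j) hkB (abs_nonneg _) (by linarith)
    have h3 := abs_add_le ((w : ℝ) * (ν j : ℝ) * (b0 : ℝ)) ((b j : ℝ) * (k : ℝ))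
    have h4 : Wr * (CR * A ^ (n + 1)) * B ≤ Wr * CR * B * A ^ (n + 2) := by
      rw [hApow2]
      have h5 : Wr * (CR * A ^ (n + 1)) * B = Wr * CR * B * A ^ (n + 1) := by ring
      rw [h5]
      have h6 : A ^ (n + 1) ≤ A ^ (n + 1) * A := by nlinarith
      exact mul_le_mul_of_nonneg_left h6 (by positivity)
    have h7 : B * (Wr * ((n + 1) * (CR * A ^ (n + 1) * A))) =
        (n + 1) * (Wr * CR * B * A ^ (n + 2)) := by
      rw [hApow2]
      ring
    have h8 : 0 ≤ Wr * CR * B * A ^ (n + 2) := by positivity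
    have h9 : M * B * A ^ (n + 2) = 2 * (n + 2) * (Wr * CR * B * A ^ (n + 2)) := by
      rw [hMdef]
      ring
    rw [h9]
    have h10 : ((n : ℝ) + 2) * (Wr * CR * B * A ^ (n + 2)) ≤
        2 * (n + 2) * (Wr * CR * B * A ^ (n + 2)) := by nlinarith
    rw [h7] at h2
    linarith
  have hboundi : ∀ i, |((((w : ℤ) * (ν j * b (j.succAbove i) - b j * ν (j.succAbove i)) : ℤ)) : ℝ)| ≤
      M * B * A ^ (n + 2) := by
    intro i
    push_cast
    have h1 : |(ν j : ℝ) * (b (j.succAbove i) : ℝ)| ≤ CR * A ^ (n + 1) * B := by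
      rw [abs_mul]
      exact mul_le_mul (hνB j) (hb _) (abs_nonneg _) (by positivity)
    have h2 : |(b j : ℝ) * (ν (j.succAbove i) : ℝ)| ≤ B * (CR * A ^ (n + 1)) := by
      rw [abs_mul]
      exact mul_le_mul (hb j) (hνB _) (abs_nonneg _) (by linarith)
    have h3 := abs_sub ((ν j : ℝ) * (b (j.succAbove i) : ℝ))
      ((b j : ℝ) * (ν (j.succAbove i) : ℝ))
    have h4 : |(ν j : ℝ) * (b (j.succAbove i) : ℝ) - (b j : ℝ) * (ν (j.succAbove i) : ℝ)| ≤
        2 * (CR * B * A ^ (n + 1)) := by linarith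
    rw [abs_mul, Nat.abs_cast]
    have h5 : (w : ℝ) * |(ν j : ℝ) * (b (j.succAbove i) : ℝ) -
        (b j : ℝ) * (ν (j.succAbove i) : ℝ)| ≤ Wr * (2 * (CR * B * A ^ (n + 1))) :=
      mul_le_mul hwW h4 (abs_nonneg _) (by linarith)
    refine h5.trans ?_
    have h6 : A ^ (n + 1) ≤ A ^ (n + 2) := by
      rw [hApow2]
      nlinarith
    have h7 : Wr * (2 * (CR * B * A ^ (n + 1))) ≤ Wr * (2 * (CR * B * A ^ (n + 2))) := by
      refine mul_le_mul_of_nonneg_left ?_ (by linarith)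
      refine mul_le_mul_of_nonneg_left ?_ (by norm_num)
      exact mul_le_mul_of_nonneg_left h6 (by positivity)
    refine h7.trans ?_
    have h9 : M * B * A ^ (n + 2) = (n + 2) * (Wr * (2 * (CR * B * A ^ (n + 2)))) := by
      rw [hMdef]
      ring
    rw [h9]
    have h10 : 0 ≤ Wr * (2 * (CR * B * A ^ (n + 2))) := by positivity
    nlinarith
  have hIH1 := hIH K hd (bt_sub D j) ((w : ℤ) * ν j * b0 + b j * k)
    (fun i => (w : ℤ) * (ν j * b (j.succAbove i) - b j * ν (j.succAbove i)))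
    (M * B * A ^ (n + 2)) hB2 hbound0 hboundi hne2
  set A2 := ∏ i, (bt_sub D j).A i with hA2def
  have hA21 : 1 ≤ A2 := bt_one_le_prod _ (bt_sub D j).one_le_A
  have hA2A : A2 ≤ A := by
    have h1 : A = D.A j * A2 := by
      rw [hAdef, hA2def]
      exact Fin.prod_univ_succAbove D.A j
    rw [h1]
    have h2 := D.one_le_A j
    nlinarith
  have hnorm : ‖(((w : ℤ) * ν j * b0 + b j * k : ℤ) : ℂ) * (2 * Real.pi * Complex.I) +
      LS (bt_sub D j).l
        (fun i => (w : ℤ) * (ν j * b (j.succAbove i) - b j * ν (j.succAbove i)))‖ =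
      (w * |(ν j : ℝ)|) * ‖(b0 : ℂ) * (2 * Real.pi * Complex.I) + LS D.l b‖ := by
    show ‖(((w : ℤ) * ν j * b0 + b j * k : ℤ) : ℂ) * (2 * Real.pi * Complex.I) +
      LS (fun i => D.l (j.succAbove i))
        (fun i => (w : ℤ) * (ν j * b (j.succAbove i) - b j * ν (j.succAbove i)))‖ = _
    rw [hid, norm_mul, norm_mul, Complex.norm_natCast, Complex.norm_intCast]
  rw [hnorm] at hIH1
  set V := (w : ℝ) * |(ν j : ℝ)| with hVdef
  have hV0 : 0 < V := by
    have h1 : 0 < |(ν j : ℝ)| := abs_pos.mpr (by exact_mod_cast hj)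
    positivity
  have hVM : V ≤ M * A ^ (n + 1) := by
    have h1 : V ≤ Wr * (CR * A ^ (n + 1)) :=
      mul_le_mul hwW (hνB j) (abs_nonneg _) (by linarith)
    refine h1.trans ?_
    have h2 : M * A ^ (n + 1) = (2 * (n + 2)) * (Wr * (CR * A ^ (n + 1))) := by
      rw [hMdef]
      ring
    rw [h2]
    have h3 : 0 ≤ Wr * (CR * A ^ (n + 1)) := by positivity
    nlinarith
  have hdep := bt_dep_ineq n B A A2 M V Cn hB hA1 hA21 hA2A (by linarith) hV0 hVM hCn
  obtain ⟨hL1, -⟩ := bt_log1 B A hB hA1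
  have hfin := bt_exp_mono _ _ C A ((Real.log (B * A) + 1) ^ 3) hdep hC (by linarith)
    (by positivity)
  refine hfin.trans ?_
  rw [neg_add, Real.exp_add, Real.exp_neg (Real.log V), Real.exp_log hV0]
  have e : -Cn * A2 * (Real.log (M * B * A ^ (n + 2) * A2) + 1) ^ 3 =
    -(Cn * A2 * (Real.log (M * B * A ^ (n + 2) * A2) + 1) ^ 3) := by ring
  rw [e] at hIH1
  rw [← div_eq_mul_inv, div_le_iff₀ hV0]
  linarith

theorem st_BT (hMAINP : ST_MAINP) (hTERM : ST_TERM) (hTORB : ST_TORB) (hREL : ST_REL) :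
    ST_BT := by
  intro n d
  suffices h : ∃ C : ℝ, 1 ≤ C ∧ BTC n d C by
    obtain ⟨C, hC1, hC⟩ := h
    exact ⟨C, hC1, hC⟩
  induction n with
  | zero => exact ⟨1, le_refl 1, bt_zero d⟩
  | succ n ih =>
    obtain ⟨Cn, hCn1, hCn⟩ := ih
    obtain ⟨W, hW⟩ := hTORB d
    obtain ⟨CR, hCR1, hCR⟩ := hREL (n + 1) d
    obtain ⟨c, hc0, hc1, hc⟩ := hTERM (n + 1) d
    obtain ⟨C1, hC11, hC1⟩ := hMAINP (n + 2) d c (by omega) hc0 hc1
    have hWr : (1 : ℝ) ≤ (W : ℝ) + 1 := by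
      have : (0 : ℝ) ≤ W := Nat.cast_nonneg W
      linarith
    set Wr : ℝ := (W : ℝ) + 1 with hWrdef
    have hn : (0 : ℝ) ≤ n := Nat.cast_nonneg n
    have hl7 : 0 ≤ Real.log (7 * Wr) := Real.log_nonneg (by linarith)
    have hM1 : 1 ≤ 2 * Wr * CR * (n + 2) := by
      have : 1 ≤ Wr * CR := by nlinarith
      nlinarith
    have hlM : 0 ≤ Real.log (2 * Wr * CR * (n + 2)) := Real.log_nonneg hM1
    have hX1 : 1 ≤ 7 * C1 * (1 + Real.log (7 * Wr)) ^ 3 := by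
      have h1 : 1 ≤ (1 + Real.log (7 * Wr)) ^ 3 := one_le_pow₀ (by linarith)
      nlinarith
    have hX2 : 0 ≤ Cn * (Real.log (2 * Wr * CR * (n + 2)) + n + 3) ^ 3 := by positivity
    have hX3 : 0 ≤ Real.log (2 * Wr * CR * (n + 2)) + n + 1 := by positivity
    refine ⟨7 * C1 * (1 + Real.log (7 * Wr)) ^ 3 +
      (Cn * (Real.log (2 * Wr * CR * (n + 2)) + n + 3) ^ 3 +
      (Real.log (2 * Wr * CR * (n + 2)) + n + 1)), by linarith, ?_⟩
    intro K _ _ hd D b0 b B hB hb0 hb hne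
    obtain ⟨w, hw1, hwW, ⟨ζ, hζ⟩, hT⟩ := hW K hd D.σ
    have hwWr : (w : ℝ) ≤ Wr := by
      have : (w : ℝ) ≤ W := by exact_mod_cast hwW
      linarith
    have hA1 : 1 ≤ ∏ i, D.A i := bt_one_le_prod _ D.one_le_A
    by_cases hind : ∀ ν : Fin (n + 1) → ℤ, TOR (∏ i, D.α i ^ ν i) → ν = 0
    · have hTP : TP (bt_ext D w ζ hw1 hζ) c := by
        refine hc K hd (bt_ext D w ζ hw1 hζ) w hw1 ?_ hT ?_
        · show (Fin.cons (2 * (Real.pi : ℂ) * Complex.I / w) D.l : Fin (n + 2) → ℂ) 0 = _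
          rw [Fin.cons_zero]
        · intro ν hν
          apply hind ν
          have h1 : (∏ i : Fin (n + 1), (bt_ext D w ζ hw1 hζ).α i.succ ^ ν i) =
              ∏ i, D.α i ^ ν i := by
            refine Finset.prod_congr rfl (fun i _ => ?_)
            show (Fin.cons ζ D.α : Fin (n + 2) → K) i.succ ^ ν i = _
            rw [Fin.cons_succ]
          rw [h1] at hν
          exact hν
      have h1 := bt_case1 n D b0 b B hB hb0 hb hne w Wr ζ hw1 hwWr hζ C1 hC11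
        (fun b' B' h1 h2 h3 => hC1 K hd (bt_ext D w ζ hw1 hζ) hTP b' B' h1 h2 h3)
      refine le_trans ?_ h1
      refine bt_exp_mono _ (7 * C1 * (1 + Real.log (7 * Wr)) ^ 3) _ _ _
        (bt_indep_ineq B _ Wr C1 hB hA1 hWr hC11) (by linarith) (by linarith) ?_
      obtain ⟨hL1, -⟩ := bt_log1 B _ hB hA1
      positivity
    · push Not at hind
      obtain ⟨ν0, hν0T, hν0⟩ := hind
      obtain ⟨ν, hν, hνB, hνT⟩ := hCR K hd D.α (∏ i, D.A i) hA1 D.α_ne
        (fun i => (D.h_le i).trans (bt_le_prod _ D.one_le_A i)) ⟨ν0, hν0, hν0T⟩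
      exact bt_case2 n d Cn hCn1 hCn hd D b0 b B hB hb0 hb hne w Wr CR hw1 hwWr hCR1 hT ν hν hνB
        hνT _ (by linarith)

end

end Pool.Agent.Helper89.HB
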